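import Mathlib
import Pool.Agent.Results.MP_570618_gt.AllThreeFail
import Pool.Agent.Y568.EB.A
import Pool.Agent.Y568.EB.B
import Pool.Agent.Y568.EB.C
import Pool.Agent.Y568.EB.D
import Pool.Agent.Y568.EB.N

open Set Filter Topology Cardinal

namespace Pool.Agent.Results.MP_570618_gt.MetrizableClassification

open Pool.Agent.Results.MP_570618_gt.AllThreeFail Pool.Agent.Y568.EB

/-- All three statements fail for `X`, for one and the same compact set `B`, and for a dense
subspace `S` which even contains an open dense subset `G` of `C_p(X)`. -/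
def AllFail (X : Type) [TopologicalSpace X] : Prop :=
  ∃ S G : Set (Cp X), IsOpen G ∧ Dense G ∧ G ⊆ S ∧
    ∃ (Y : Type) (_ : TopologicalSpace Y) (_ : T35Space Y) (φ : S → Y),
      Continuous φ ∧ Function.Surjective φ ∧
        ∃ B : Set Y, IsCompact B ∧ ℵ₀ < tightness B ∧ ¬ SequentialSpace B ∧ ¬ Monolithic B

/-- All three statements hold for `X`, even for all subspaces `S` of `C_p(X)`, dense or not. -/
def AllHold (X : Type) [TopologicalSpace X] : Prop :=
  ∀ (S : Set (Cp X)) (Y : Type) [TopologicalSpace Y] [T35Space Y] (φ : S → Y),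
    Continuous φ → Function.Surjective φ → ∀ B : Set Y, IsCompact B →
      tightness B ≤ ℵ₀ ∧ SequentialSpace B ∧ Monolithic B

/-- An Eberlein compact space is compact and has a weakly continuous injection into a Banach
space. -/
lemma exists_injection (X : Type) [TopologicalSpace X] (hX : IsEberleinCompact X) :
    CompactSpace X ∧ T2Space X ∧ ∃ (E : Type) (_ : NormedAddCommGroup E) (_ : NormedSpace ℝ E)
      (j : X → E), Function.Injective j ∧ ∀ f : StrongDual ℝ E, Continuous fun x => f (j x) := by
  obtain ⟨E, _, _, _, K, hK, ⟨h⟩⟩ := hX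
  let j : X → E := fun x => (toWeakSpace ℝ E).symm (h x).1
  have hj : ∀ f : StrongDual ℝ E, Continuous fun x => f (j x) := by
    intro f
    have h1 : Continuous fun w : WeakSpace ℝ E => f ((toWeakSpace ℝ E).symm w) :=
      WeakBilin.eval_continuous (topDualPairing ℝ E).flip f
    exact h1.comp (continuous_subtype_val.comp h.continuous)
  have hinj : Function.Injective j := fun x y hxy =>
    h.injective (Subtype.ext ((toWeakSpace ℝ E).symm.injective hxy))
  have hc : CompactSpace X := by
    have : CompactSpace K := isCompact_iff_compactSpace.1 hK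
    exact h.symm.compactSpace
  refine ⟨hc, ⟨fun x y hxy => ?_⟩, E, _, _, j, hinj, hj⟩
  have hne : j x - j y ≠ 0 := sub_ne_zero.2 (fun hh => hxy (hinj hh))
  obtain ⟨f, -, hf⟩ := exists_dual_vector'' ℝ (j x - j y)
  have h1 : f (j x) ≠ f (j y) := by
    intro heq
    rw [map_sub, heq, sub_self] at hf
    have h2 : ‖j x - j y‖ = 0 := by simpa using hf.symm
    exact hne (norm_eq_zero.1 h2)
  exact separated_by_continuous (hj f) h1

/-- **Classification.** (1) For an Eberlein compact space `X` all three statements hold if `X`
is metrizable, and all three fail, for one compact set `B`, if `X` is not metrizable. (2) There are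
nonmetrizable Eberlein compact spaces. (3) All three fail for every nonseparable compact space.
(4) All three fail for every Tychonoff space with an uncountable discrete subspace. -/
theorem result :
    (∀ (X : Type) [TopologicalSpace X], IsEberleinCompact X →
      (TopologicalSpace.MetrizableSpace X → AllHold X) ∧
      (¬ TopologicalSpace.MetrizableSpace X → AllFail X)) ∧
    (∃ (X : Type) (_ : TopologicalSpace X), IsEberleinCompact X ∧
      ¬ TopologicalSpace.MetrizableSpace X) ∧
    (∀ (X : Type) [TopologicalSpace X] [CompactSpace X] [T2Space X],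
      ¬ TopologicalSpace.SeparableSpace X → AllFail X) ∧
    (∀ (X : Type) [TopologicalSpace X] [T35Space X],
      (∃ D : Set X, ¬ D.Countable ∧ DiscreteTopology D) → AllFail X) := by
  have h1 : ∀ (X : Type) [TopologicalSpace X], IsEberleinCompact X →
      (TopologicalSpace.MetrizableSpace X → AllHold X) ∧
      (¬ TopologicalSpace.MetrizableSpace X → AllFail X) := by
    intro X _ hX
    obtain ⟨hc, ht, E, _, _, j, hinj, hj⟩ := exists_injection X hX
    refine ⟨?_, ?_⟩
    · intro hm S Y _ _ φ hφ hs B hB
      have := metrizable_case X S Y φ hφ hs B hB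
      have : CompactSpace B := isCompact_iff_compactSpace.1 hB
      exact good_of_metrizable B
    · intro hm
      apply not_ccc
      intro hccc
      exact hm (rosenthal j hinj hj hccc)
  refine ⟨h1, ?_, fun X _ _ _ hX => of_nonseparable X fun ⟨c, hc, hd⟩ => hX ⟨c, hc, hd⟩,
    fun X _ _ ⟨D, hD, hdisc⟩ => of_discrete X D hD hdisc⟩
  obtain ⟨X, _, hX, S, -, Y, _, _, φ, hφ, hs, B, hB, hB1, -, -⟩ :=
    Pool.Agent.Results.MP_570618_gt.AllThreeFail.result
  refine ⟨X, inferInstance, hX, fun hm => ?_⟩
  exact absurd ((h1 X hX).1 hm S Y φ hφ hs B hB).1 (not_le.2 hB1)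

end Pool.Agent.Results.MP_570618_gt.MetrizableClassification
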